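import Pool.Agent.W114.HL.Stm
import Pool.Agent.W308.PQ.C1

/-! # Project HL: C2, exactly one exact prime divisor, with a rate -/

set_option autoImplicit false

namespace Pool.Agent.W348.HL

open Finset Filter Topology
open Pool.Agent.H951R4.OD (ch PI Ex)
open Pool.Agent.W114.PQ (wX EP)
open Pool.Agent.W114.HL
open Pool.Agent.W308.PQ (omega_le params)

/-- the set which is counted -/
def A (D : Dat) (X : ℕ) : Set ℕ := {n : ℕ | 1 ≤ n ∧ n ≤ X ∧ Pass D n ∧
    ∃ r : ℕ, wX X < r ∧ Ex D.c0 n r ∧ ∀ r' : ℕ, Ex D.c0 n r' → r' = r}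

theorem A_le (D : Dat) (X : ℕ) : (A D X).ncard ≤ X := by
  have : (Finset.Icc 1 X).card = X := by simp
  conv_rhs => rw [← this, ← Set.ncard_coe_finset]
  refine Set.ncard_le_ncard ?_ (Finset.finite_toSet _)
  intro n hn
  simp only [Finset.mem_coe, Finset.mem_Icc]
  exact ⟨hn.1, hn.2.1⟩

/-- the decomposition of `n` -/
theorem decomp1 (gd : Pool.Agent.W114.PQ.S_GD) {c0 n r : ℕ} (hn : 1 ≤ n) (hE : Ex c0 n r)
    (hu : ∀ r' : ℕ, Ex c0 n r' → r' = r) :
    ∃ g : ℕ, 1 ≤ g ∧ (∀ p : ℕ, ¬ Ex c0 g p) ∧ n = g * r := by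
  classical
  obtain ⟨g, hg, hng, hex, _⟩ := gd c0 n hn
  have hset : EP c0 n n = {r} := by
    ext p
    simp only [EP, Finset.mem_filter, Finset.mem_Icc, Finset.mem_singleton]
    constructor
    · rintro ⟨_, h⟩
      exact hu p h
    · rintro rfl
      exact ⟨⟨hE.1.one_le, Nat.le_of_dvd hn hE.2.2.1⟩, hE⟩
  rw [hset, Finset.prod_singleton] at hng
  exact ⟨g, hg, hex, hng⟩

open scoped Classical in
/-- the counting bound -/
theorem count_bound (gd : Pool.Agent.W114.PQ.S_GD) (D : Dat) (z X : ℕ) (G : ℝ) (Cc W κ : ℝ)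
    (hCP : ∀ g : ℕ, 1 ≤ g → g ^ 4 ≤ X →
      ({p : ℕ | p.Prime ∧ z < p ∧ p ≤ X / g ∧ Ex D.c0 (g * p) p ∧ Pass D (g * p)}.ncard : ℝ) ≤
        Cc * (1 + (g.primeFactors.card : ℝ)) ^ κ * (X / g) * W)
    (ha : ∀ g : ℕ, 1 ≤ g → (g : ℝ) ≤ G → g ^ 4 ≤ X) :
    ∃ (S1 S2 : Finset ℕ),
      (∀ g ∈ S1, G ≤ g ∧ ∀ p : ℕ, ¬ Ex D.c0 g p) ∧
      (∀ g ∈ S2, (1 : ℝ) ≤ g ∧ ∀ p : ℕ, ¬ Ex D.c0 g p) ∧
      (∀ g ∈ S2, (g : ℝ) ≤ G) ∧
      ((A D X).ncard : ℝ) ≤
      ∑ g ∈ S1, (X : ℝ) / g + ∑ g ∈ S2, ((z : ℝ) + Cc *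
        (1 + (g.primeFactors.card : ℝ)) ^ κ * (X / (g : ℝ)) * W) := by
  set S0 : Finset ℕ := (Icc 1 X).filter (fun g => ∀ p, ¬ Ex D.c0 g p) with hS0
  set S1 : Finset ℕ := S0.filter (fun g => G < (g : ℝ)) with hS1
  set S2 : Finset ℕ := S0.filter (fun g => (g : ℝ) ≤ G) with hS2
  refine ⟨S1, S2, ?_, ?_, ?_, ?_⟩
  · intro g hg
    rw [hS1, Finset.mem_filter, hS0, Finset.mem_filter] at hg
    exact ⟨hg.2.le, hg.1.2⟩
  · intro g hg
    rw [hS2, Finset.mem_filter, hS0, Finset.mem_filter, Finset.mem_Icc] at hg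
    exact ⟨by exact_mod_cast hg.1.1.1, hg.1.2⟩
  · intro g hg
    rw [hS2, Finset.mem_filter] at hg
    exact hg.2
  let F : ℕ → Set ℕ := fun g =>
    {p : ℕ | p.Prime ∧ z < p ∧ p ≤ X / g ∧ Ex D.c0 (g * p) p ∧ Pass D (g * p)}
  have hF : ∀ g, (F g).Finite := fun g =>
    (Set.finite_Iic (X / g)).subset fun p hp => hp.2.2.1
  let U1 : Finset ℕ := S1.biUnion fun g => (Ioc 0 X).filter (g ∣ ·)
  let U2 : Finset ℕ := S2.biUnion fun g =>
    (Icc 1 z ∪ (hF g).toFinset).image fun p => g * p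
  have hsub : A D X ⊆ ((U1 ∪ U2 : Finset ℕ) : Set ℕ) := by
    rintro n ⟨hn1, hnX, hpass, r, hr, hE, hu⟩
    obtain ⟨g, hg, hex, hn⟩ := decomp1 gd hn1 hE hu
    have hgX : g ≤ X := by
      have : g ∣ n := by
        rw [hn]
        exact Dvd.intro _ rfl
      exact (Nat.le_of_dvd hn1 this).trans hnX
    have hgS0 : g ∈ S0 := by
      rw [hS0, Finset.mem_filter, Finset.mem_Icc]
      exact ⟨⟨hg, hgX⟩, hex⟩
    rw [Finset.coe_union, Set.mem_union]
    rcases lt_or_ge G (g : ℝ) with hG | hG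
    · left
      rw [Finset.mem_coe, Finset.mem_biUnion]
      refine ⟨g, ?_, ?_⟩
      · rw [hS1, Finset.mem_filter]
        exact ⟨hgS0, hG⟩
      · rw [Finset.mem_filter, Finset.mem_Ioc]
        refine ⟨⟨hn1, hnX⟩, ?_⟩
        rw [hn]
        exact Dvd.intro _ rfl
    · right
      rw [Finset.mem_coe, Finset.mem_biUnion]
      refine ⟨g, Finset.mem_filter.mpr ⟨hgS0, hG⟩, ?_⟩
      rw [Finset.mem_image]
      refine ⟨r, ?_, hn.symm⟩
      rw [Finset.mem_union, Finset.mem_Icc, Set.Finite.mem_toFinset]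
      rcases Nat.lt_or_ge z r with h | h
      · right
        refine ⟨hE.1, h, ?_, ?_, ?_⟩
        · rw [Nat.le_div_iff_mul_le hg, mul_comm, ← hn]
          exact hnX
        · rw [← hn]
          exact hE
        · rw [← hn]
          exact hpass
      · left
        exact ⟨hE.1.one_le, h⟩
  have h1 : ((A D X).ncard : ℝ) ≤ ((U1 ∪ U2 : Finset ℕ).card : ℝ) := by
    have := Set.ncard_le_ncard hsub (Finset.finite_toSet _)
    rw [Set.ncard_coe_finset] at this
    exact_mod_cast this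
  have h2 : ((U1 ∪ U2 : Finset ℕ).card : ℝ) ≤ (U1.card : ℝ) + (U2.card : ℝ) := by
    exact_mod_cast Finset.card_union_le _ _
  have h3 : (U1.card : ℝ) ≤ ∑ g ∈ S1, (X : ℝ) / g := by
    calc (U1.card : ℝ) ≤ ((∑ g ∈ S1, ((Ioc 0 X).filter (g ∣ ·)).card : ℕ) : ℝ) := by
          exact_mod_cast Finset.card_biUnion_le
      _ = ∑ g ∈ S1, ((X / g : ℕ) : ℝ) := by
          rw [Nat.cast_sum]
          refine Finset.sum_congr rfl fun g _ => ?_
          rw [Nat.Ioc_filter_dvd_card_eq_div]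
      _ ≤ ∑ g ∈ S1, (X : ℝ) / g := Finset.sum_le_sum fun g _ => Nat.cast_div_le
  have h4 : (U2.card : ℝ) ≤ ∑ g ∈ S2, ((z : ℝ) + ((F g).ncard : ℝ)) := by
    calc (U2.card : ℝ) ≤ ((∑ g ∈ S2, ((Icc 1 z ∪ (hF g).toFinset).image
            fun p => g * p).card : ℕ) : ℝ) := by
          exact_mod_cast Finset.card_biUnion_le
      _ ≤ ∑ g ∈ S2, ((z : ℝ) + ((F g).ncard : ℝ)) := by
          rw [Nat.cast_sum]
          refine Finset.sum_le_sum fun g _ => ?_
          rw [Set.ncard_eq_toFinset_card _ (hF g)]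
          have e1 : ((Icc 1 z ∪ (hF g).toFinset).image fun p => g * p).card ≤
              z + (hF g).toFinset.card := by
            refine Finset.card_image_le.trans ((Finset.card_union_le _ _).trans ?_)
            simp
          exact_mod_cast e1
  have h5 : ∀ g ∈ S2, ((F g).ncard : ℝ) ≤ Cc *
        (1 + (g.primeFactors.card : ℝ)) ^ κ * (X / (g : ℝ)) * W := by
    intro g hg
    rw [hS2, Finset.mem_filter, hS0, Finset.mem_filter, Finset.mem_Icc] at hg
    exact hCP g hg.1.1.1 (ha g hg.1.1.1 hg.2)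
  calc _ ≤ ((U1 ∪ U2 : Finset ℕ).card : ℝ) := h1
    _ ≤ (U1.card : ℝ) + (U2.card : ℝ) := h2
    _ ≤ _ := add_le_add h3 (h4.trans (Finset.sum_le_sum fun g hg => by
        have := h5 g hg
        linarith))

/-- from large `X` to all `X` -/
theorem all_of_large (f : ℕ → ℝ) (hf : ∀ X, f X ≤ X) (a C : ℝ) (ha : -(9 / 8) ≤ a)
    (h : ∀ᶠ X : ℕ in atTop, f X ≤ C * X * (Real.log X) ^ a) :
    ∃ C : ℝ, 0 < C ∧ ∀ X : ℕ, 3 ≤ X → f X ≤ C * X * (Real.log X) ^ a := by
  obtain ⟨X0, hX0⟩ := eventually_atTop.1 h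
  set L : ℝ := Real.log (X0 + 3) with hL
  have hlog3 : 1 ≤ Real.log 3 := by
    rw [Real.le_log_iff_exp_le (by norm_num)]
    have := Real.exp_one_lt_d9
    linarith
  have hL1 : 1 ≤ L := hlog3.trans (Real.log_le_log (by norm_num) (by
    have : (0 : ℝ) ≤ X0 := Nat.cast_nonneg _
    linarith))
  refine ⟨max C (L ^ (9 / 8 : ℝ)), lt_max_of_lt_right (by positivity), fun X hX => ?_⟩
  have hX3 : (3 : ℝ) ≤ X := by exact_mod_cast hX
  have hlX : 1 ≤ Real.log X := hlog3.trans (Real.log_le_log (by norm_num) hX3)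
  rcases Nat.lt_or_ge X X0 with hlt | hge
  · have h1 : Real.log X ≤ L := by
      apply Real.log_le_log (by linarith)
      have : (X : ℝ) ≤ X0 := by exact_mod_cast hlt.le
      linarith
    have h2 : (Real.log X) ^ (-(9 / 8) : ℝ) ≤ (Real.log X) ^ a :=
      Real.rpow_le_rpow_of_exponent_le hlX ha
    have h3 : 1 ≤ L ^ (9 / 8 : ℝ) * (Real.log X) ^ (-(9 / 8) : ℝ) := by
      rw [Real.rpow_neg (by linarith), ← div_eq_mul_inv, one_le_div (by positivity)]
      exact Real.rpow_le_rpow (by linarith) h1 (by norm_num)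
    calc f X ≤ X := hf X
      _ = 1 * X := by ring
      _ ≤ (L ^ (9 / 8 : ℝ) * (Real.log X) ^ (-(9 / 8) : ℝ)) * X :=
          mul_le_mul_of_nonneg_right h3 (by linarith)
      _ ≤ (max C (L ^ (9 / 8 : ℝ)) * (Real.log X) ^ a) * X := by
          refine mul_le_mul_of_nonneg_right ?_ (by linarith)
          exact mul_le_mul (le_max_right _ _) h2 (by positivity) (by positivity)
      _ = _ := by ring
  · refine (hX0 X hge).trans ?_
    refine mul_le_mul_of_nonneg_right ?_ (by positivity)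
    exact mul_le_mul_of_nonneg_right (le_max_left _ _) (by linarith)

theorem c2 (cp : S_CP) (gs : Pool.Agent.W114.PQ.S_GS) (gd : Pool.Agent.W114.PQ.S_GD) :
    S_C2 := by
  intro D hD ε hε
  obtain ⟨C1, hC1, hcp⟩ := cp D hD
  obtain ⟨C2, hC2, hgs⟩ := gs D.c0 hD.c0_pos
  have hκ : 1 ≤ D.κ := hD.κ1
  obtain ⟨κ, hκd⟩ : ∃ κ : ℝ, κ = D.κ + 1 := ⟨_, rfl⟩
  rw [← hκd] at hcp
  refine all_of_large (fun X => ((A D X).ncard : ℝ)) (fun X => by exact_mod_cast A_le D X)
    (ε - 9 / 8) (C2 + 1 + C1 * C2 * (32 * C1) ^ (9 / 8 : ℝ) * 10 ^ κ) (by linarith) ?_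
  have hL : Tendsto (fun X : ℕ => Real.log X) atTop atTop :=
    Real.tendsto_log_atTop.comp tendsto_natCast_atTop_atTop
  have hy : Tendsto (fun X : ℕ => Real.log (Real.log X)) atTop atTop :=
    Real.tendsto_log_atTop.comp hL
  have t1 : ∀ᶠ y : ℝ in atTop, y ^ (κ + 9 / 8 : ℝ) * Real.exp (-ε * y) < 1 :=
    (tendsto_rpow_mul_exp_neg_mul_atTop_nhds_zero (κ + 9 / 8) ε hε).eventually
      (gt_mem_nhds one_pos)
  have t2 : ∀ᶠ y : ℝ in atTop, 4 * y ≤ Real.exp y := by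
    have := (tendsto_rpow_mul_exp_neg_mul_atTop_nhds_zero 1 1 one_pos).eventually
      (gt_mem_nhds (show (0 : ℝ) < 1 / 4 by norm_num))
    filter_upwards [this] with y h
    rw [Real.rpow_one, neg_one_mul, Real.exp_neg, ← div_eq_mul_inv,
      div_lt_div_iff₀ (Real.exp_pos _) (by norm_num)] at h
    linarith
  filter_upwards [params (C := 4 * C1) (by linarith) 0, hy.eventually t1, hy.eventually t2,
    eventually_ge_atTop 3] with X hp e1 e2 hX3
  obtain ⟨y, z, hyd, hy1, hLy, hXy, hw3, hwz, hz, hwy, hzy, hXb⟩ := hp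
  rw [← hyd] at e1 e2
  have hz3 : 3 ≤ z := hw3.trans hwz
  have hXr : (3 : ℝ) ≤ X := by exact_mod_cast hX3
  have hy0 : 0 < y := by linarith
  have hlogz : 1 ≤ Real.log z := by
    have h1 : (3 : ℝ) ≤ z := by exact_mod_cast hz3
    rw [Real.le_log_iff_exp_le (by linarith)]
    have := Real.exp_one_lt_d9
    linarith
  have hllz : 0 ≤ Real.log (Real.log z) := Real.log_nonneg hlogz
  set W : ℝ := (Real.log z) ^ (-(9 / 8) : ℝ) with hW
  have hG4 : ∀ g : ℕ, 1 ≤ g → (g : ℝ) ≤ Real.exp (6 * y) → g ^ 4 ≤ X := by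
    intro g _ hg
    have h1 : (g : ℝ) ^ 4 ≤ X := by
      calc (g : ℝ) ^ 4 ≤ (Real.exp (6 * y)) ^ 4 := pow_le_pow_left₀ (Nat.cast_nonneg _) hg 4
        _ = Real.exp (24 * y) := by
            rw [← Real.exp_nat_mul]
            congr 1
            push_cast
            ring
        _ ≤ X := by
            refine le_trans (Real.exp_le_exp.2 ?_) hXb
            simp
    exact_mod_cast h1
  have hCz : C1 * Real.log z * (1 + Real.log (Real.log z)) ≤ Real.log X := by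
    refine le_trans ?_ hz
    refine mul_le_mul_of_nonneg_right ?_ (by linarith)
    exact mul_le_mul_of_nonneg_right (by linarith) (by linarith)
  obtain ⟨S1, S2, hS1, hS2, hS2G, hA⟩ := count_bound gd D z X (Real.exp (6 * y)) C1 W κ
    (fun g hg hg4 => hcp z X g hz3 hCz hg hg4) hG4
  -- the first sum
  have b1 : ∑ g ∈ S1, (X : ℝ) / g ≤ C2 * X * Real.exp (-2 * y) := by
    have h1 := hgs (Real.exp (6 * y)) S1 (Real.one_le_exp (by linarith)) hS1
    have h2 : Real.exp (6 * y) ^ (-(1 / 3) : ℝ) = Real.exp (-2 * y) := by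
      rw [← Real.exp_mul]
      congr 1
      ring
    rw [h2] at h1
    calc ∑ g ∈ S1, (X : ℝ) / g = X * ∑ g ∈ S1, (1 : ℝ) / g := by
          rw [Finset.mul_sum]
          exact Finset.sum_congr rfl fun g _ => by ring
      _ ≤ X * (C2 * Real.exp (-2 * y)) := mul_le_mul_of_nonneg_left h1 (by linarith)
      _ = _ := by ring
  -- the number of elements of `S2`
  have hcard : (S2.card : ℝ) ≤ Real.exp (6 * y) := by
    have h1 : S2 ⊆ Icc 1 ⌊Real.exp (6 * y)⌋₊ := by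
      intro g hg
      rw [Finset.mem_Icc]
      exact ⟨by exact_mod_cast (hS2 g hg).1, Nat.le_floor (hS2G g hg)⟩
    have h2 := Finset.card_le_card h1
    rw [Nat.card_Icc, Nat.add_sub_cancel] at h2
    calc (S2.card : ℝ) ≤ (⌊Real.exp (6 * y)⌋₊ : ℝ) := by exact_mod_cast h2
      _ ≤ _ := Nat.floor_le (Real.exp_pos _).le
  have hzX : (z : ℝ) ≤ Real.exp (Real.exp y / 4) := by
    have h1 : (0 : ℝ) < z := by
      have : (3 : ℝ) ≤ z := by exact_mod_cast hz3
      linarith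
    rw [← Real.log_le_iff_le_exp h1]
    rw [hLy] at hz
    have h2 : 4 * Real.log z ≤ Real.exp y := by
      refine le_trans ?_ hz
      have h3 : 4 * Real.log z ≤ 4 * C1 * Real.log z :=
        mul_le_mul_of_nonneg_right (by linarith) (by linarith)
      refine h3.trans ?_
      have h4 : 0 ≤ 4 * C1 * Real.log z := by positivity
      nlinarith
    linarith
  have b2 : ∑ g ∈ S2, (z : ℝ) ≤ X * Real.exp (-2 * y) := by
    rw [Finset.sum_const, nsmul_eq_mul]
    calc (S2.card : ℝ) * z ≤ Real.exp (6 * y) * Real.exp (Real.exp y / 4) :=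
          mul_le_mul hcard hzX (Nat.cast_nonneg _) (Real.exp_pos _).le
      _ = Real.exp (6 * y + Real.exp y / 4) := by rw [Real.exp_add]
      _ ≤ Real.exp (Real.exp y + -2 * y) := by
          apply Real.exp_le_exp.2
          have h24 : 24 * y ≤ Real.exp y := by
            have h5 : Real.exp (24 * y) ≤ X := by
              refine le_trans (Real.exp_le_exp.2 ?_) hXb
              rw [Nat.cast_zero, mul_zero, zero_mul, add_zero]
            rw [hXy] at h5
            exact Real.exp_le_exp.1 h5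
          linarith
      _ = X * Real.exp (-2 * y) := by rw [Real.exp_add, ← hXy]
  have b3 : ∑ g ∈ S2, C1 * (1 + (g.primeFactors.card : ℝ)) ^ κ * (X / (g : ℝ)) * W ≤
      C1 * (10 * y) ^ κ * X * C2 * W := by
    have hW0 : 0 ≤ W := by
      rw [hW]
      exact Real.rpow_nonneg (by linarith) _
    have h1 : ∀ g ∈ S2, C1 * (1 + (g.primeFactors.card : ℝ)) ^ κ * (X / (g : ℝ)) * W ≤
        C1 * (10 * y) ^ κ * X * W * (1 / (g : ℝ)) := by
      intro g hg
      have hg1 : (1 : ℝ) ≤ g := (hS2 g hg).1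
      have h2 := omega_le (g := g) (by exact_mod_cast hg1) (hS2G g hg)
      have h3 : (1 + (g.primeFactors.card : ℝ)) ^ κ ≤ (10 * y) ^ κ :=
        Real.rpow_le_rpow (add_nonneg zero_le_one (Nat.cast_nonneg _)) (by linarith)
          (by linarith)
      calc C1 * (1 + (g.primeFactors.card : ℝ)) ^ κ * (X / (g : ℝ)) * W
          ≤ C1 * (10 * y) ^ κ * (X / (g : ℝ)) * W := by
            refine mul_le_mul_of_nonneg_right ?_ hW0
            refine mul_le_mul_of_nonneg_right ?_ (by positivity)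
            exact mul_le_mul_of_nonneg_left h3 (by linarith)
        _ = _ := by ring
    have h4 := hgs 1 S2 le_rfl hS2
    rw [Real.one_rpow, mul_one] at h4
    calc _ ≤ ∑ g ∈ S2, C1 * (10 * y) ^ κ * X * W * (1 / (g : ℝ)) := Finset.sum_le_sum h1
      _ = C1 * (10 * y) ^ κ * X * W * ∑ g ∈ S2, (1 / (g : ℝ)) := by rw [Finset.mul_sum]
      _ ≤ C1 * (10 * y) ^ κ * X * W * C2 := by
          refine mul_le_mul_of_nonneg_left h4 ?_
          positivity
      _ = _ := by ring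
  -- estimates in terms of `y`
  have hWy : W ≤ (32 * C1) ^ (9 / 8 : ℝ) * y ^ (9 / 8 : ℝ) * Real.exp (-(9 / 8) * y) := by
    have h1 : 0 < Real.exp y / (8 * (4 * C1) * y) := by positivity
    have h2 : W ≤ (Real.exp y / (8 * (4 * C1) * y)) ^ (-(9 / 8) : ℝ) :=
      Real.rpow_le_rpow_of_nonpos h1 hzy (by norm_num)
    refine h2.trans (le_of_eq ?_)
    rw [Real.div_rpow (Real.exp_pos _).le (by positivity), ← Real.exp_mul,
      show 8 * (4 * C1) * y = (32 * C1) * y by ring, Real.mul_rpow (by positivity) hy0.le,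
      Real.rpow_neg (by positivity), Real.rpow_neg hy0.le, mul_comm y (-(9 / 8) : ℝ)]
    field_simp
  have hT : (Real.log X) ^ (ε - 9 / 8) = Real.exp ((ε - 9 / 8) * y) := by
    rw [hLy, ← Real.exp_mul]
    congr 1
    ring
  have hm2 : Real.exp (-2 * y) ≤ Real.exp ((ε - 9 / 8) * y) := by
    apply Real.exp_le_exp.2
    have : 0 < ε * y := by positivity
    nlinarith
  have hfin : y ^ κ * (y ^ (9 / 8 : ℝ) * Real.exp (-(9 / 8) * y)) ≤
      Real.exp ((ε - 9 / 8) * y) := by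
    have h1 : y ^ κ * y ^ (9 / 8 : ℝ) = y ^ (κ + 9 / 8 : ℝ) := by rw [Real.rpow_add hy0]
    have h2 : Real.exp (-(9 / 8) * y) = Real.exp (-ε * y) * Real.exp ((ε - 9 / 8) * y) := by
      rw [← Real.exp_add]
      congr 1
      ring
    calc y ^ κ * (y ^ (9 / 8 : ℝ) * Real.exp (-(9 / 8) * y))
        = (y ^ (κ + 9 / 8 : ℝ) * Real.exp (-ε * y)) * Real.exp ((ε - 9 / 8) * y) := by
          rw [← h1, h2]
          ring
      _ ≤ 1 * Real.exp ((ε - 9 / 8) * y) :=
          mul_le_mul_of_nonneg_right e1.le (Real.exp_pos _).le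
      _ = _ := one_mul _
  rw [hT]
  rw [Finset.sum_add_distrib] at hA
  have hX0 : (0 : ℝ) ≤ X := by linarith
  have b3' : C1 * (10 * y) ^ κ * X * C2 * W ≤
      C1 * C2 * (32 * C1) ^ (9 / 8 : ℝ) * 10 ^ κ * X * Real.exp ((ε - 9 / 8) * y) := by
    rw [Real.mul_rpow (by norm_num) hy0.le]
    calc C1 * (10 ^ κ * y ^ κ) * X * C2 * W
        ≤ C1 * (10 ^ κ * y ^ κ) * X * C2 *
          ((32 * C1) ^ (9 / 8 : ℝ) * y ^ (9 / 8 : ℝ) * Real.exp (-(9 / 8) * y)) :=
          mul_le_mul_of_nonneg_left hWy (by positivity)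
      _ = C1 * C2 * (32 * C1) ^ (9 / 8 : ℝ) * 10 ^ κ * X *
          (y ^ κ * (y ^ (9 / 8 : ℝ) * Real.exp (-(9 / 8) * y))) := by ring
      _ ≤ _ := mul_le_mul_of_nonneg_left hfin (by positivity)
  have b1' : C2 * X * Real.exp (-2 * y) ≤ C2 * X * Real.exp ((ε - 9 / 8) * y) :=
    mul_le_mul_of_nonneg_left hm2 (by positivity)
  have b2' : X * Real.exp (-2 * y) ≤ X * Real.exp ((ε - 9 / 8) * y) :=
    mul_le_mul_of_nonneg_left hm2 (by positivity)
  calc ((A D X).ncard : ℝ) ≤ C2 * X * Real.exp ((ε - 9 / 8) * y) +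
        (X * Real.exp ((ε - 9 / 8) * y) +
        C1 * C2 * (32 * C1) ^ (9 / 8 : ℝ) * 10 ^ κ * X * Real.exp ((ε - 9 / 8) * y)) := by
        linarith
    _ = _ := by ring

end Pool.Agent.W348.HL
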